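import Pool.Agent.H92.RR.Targets

/-! # Module RSTE: ergodicity of `star α` -/

open MeasureTheory ProbabilityTheory Filter Topology Finset
open scoped ENNReal

namespace Pool.Agent.H11.RR

open Pool.Agent.H89.MT Pool.Agent.H92.RR

theorem exists_disj (J K : Finset ℤ) : ∃ m0 : ℕ, ∀ m : ℕ, m0 ≤ m →
    Disjoint J (K.map (addRightEmbedding (m : ℤ))) := by
  have hb : ∀ j ∈ J ∪ K, |j| ≤ ∑ i ∈ J ∪ K, |i| := fun j hj =>
    Finset.single_le_sum (f := fun i : ℤ => |i|) (fun i _ => abs_nonneg i) hj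
  refine ⟨(2 * ∑ i ∈ J ∪ K, |i| + 1).toNat, fun m hm => ?_⟩
  have hm2 : 2 * ∑ i ∈ J ∪ K, |i| + 1 ≤ (m : ℤ) := Int.toNat_le.1 hm
  rw [Finset.disjoint_left]
  intro j hj hjK
  rw [Finset.mem_map] at hjK
  obtain ⟨k, hk, hkj⟩ := hjK
  have h1 := hb j (Finset.mem_union_left _ hj)
  have h2 := hb k (Finset.mem_union_right _ hk)
  have h3 : k + (m : ℤ) = j := hkj
  have h4 := abs_le.1 h1
  have h5 := abs_le.1 h2
  omega

theorem prod_eq (J K : Finset ℤ) (a b : ℤ → ℕ) (m : ℕ)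
    (hd : Disjoint J (K.map (addRightEmbedding (m : ℤ)))) (x : X) :
    (∏ j ∈ J, (x j : ℝ) ^ a j) * ∏ j ∈ K, (x (j + m) : ℝ) ^ b j =
    ∏ j ∈ J ∪ K.map (addRightEmbedding (m : ℤ)),
      (x j : ℝ) ^ (if j ∈ J then a j else b (j - m)) := by
  rw [Finset.prod_union hd, Finset.prod_map]
  congr 1
  · refine Finset.prod_congr rfl fun j hj => ?_
    rw [if_pos hj]
  · refine Finset.prod_congr rfl fun j hj => ?_
    have h1 : (addRightEmbedding (m : ℤ)) j = j + m := rfl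
    have h2 : j + (m : ℤ) ∉ J := fun h =>
      Finset.disjoint_left.1 hd h (Finset.mem_map.2 ⟨j, hj, rfl⟩)
    rw [h1, if_neg h2, add_sub_cancel_right]

theorem tendsto_avg_of_eventually {f g : ℕ → ℝ} {l : ℝ} {m0 : ℕ} (h : ∀ m, m0 ≤ m → f m = g m)
    (hg : Tendsto (fun M : ℕ => (∑ m ∈ range M, g m) / M) atTop (𝓝 l)) :
    Tendsto (fun M : ℕ => (∑ m ∈ range M, f m) / M) atTop (𝓝 l) := by
  have h1 : Tendsto (fun m => f m - g m) atTop (𝓝 0) := by
    refine tendsto_const_nhds.congr' ?_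
    filter_upwards [eventually_ge_atTop m0] with m hm
    rw [h m hm, sub_self]
  have h2 := (h1.cesaro).add hg
  rw [zero_add] at h2
  refine h2.congr fun M => ?_
  rw [Finset.sum_sub_distrib]
  ring

theorem pf_STE (hCER : T_CER) (hCEA : T_CEA) (hSTS : T_STS) (hSTM : T_STM) : T_STE := by
  intro α hα herg
  obtain ⟨hp, hmom⟩ := hSTM α hα
  refine hCER (star α) hp (hSTS α hα herg.toMeasurePreserving) fun J K a b => ?_
  obtain ⟨m0, hm0⟩ := exists_disj J K
  by_cases hodd : (∃ j ∈ J, Odd (a j)) ∨ (∃ j ∈ K, Odd (b j))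
  · have h0 : (∫ x, ∏ j ∈ J, (x j : ℝ) ^ a j ∂(star α)) *
        ∫ x, ∏ j ∈ K, (x j : ℝ) ^ b j ∂(star α) = 0 := by
      rcases hodd with h | h
      · rw [(hmom J a).1 h, zero_mul]
      · rw [(hmom K b).1 h, mul_zero]
    rw [h0]
    have h2 : Tendsto (fun M : ℕ => (∑ m ∈ range M, (0 : ℝ)) / M) atTop (𝓝 0) := by
      simp
    refine tendsto_avg_of_eventually (m0 := m0) (fun m hm => ?_) h2
    rw [integral_congr_ae (Eventually.of_forall fun x => prod_eq J K a b m (hm0 m hm) x)]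
    refine (hmom _ _).1 ?_
    rcases hodd with ⟨j, hj, hja⟩ | ⟨j, hj, hjb⟩
    · exact ⟨j, Finset.mem_union_left _ hj, by rw [if_pos hj]; exact hja⟩
    · refine ⟨j + m, Finset.mem_union_right _ (Finset.mem_map.2 ⟨j, hj, rfl⟩), ?_⟩
      have h3 : j + (m : ℤ) ∉ J := fun h =>
        Finset.disjoint_left.1 (hm0 m hm) h (Finset.mem_map.2 ⟨j, hj, rfl⟩)
      rw [if_neg h3, add_sub_cancel_right]
      exact hjb
  · push Not at hodd
    obtain ⟨hJ, hK⟩ := hodd
    have hJ2 : ∀ j ∈ J, Even (a j) := fun j hj => Nat.not_odd_iff_even.1 (hJ j hj)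
    have hK2 : ∀ j ∈ K, Even (b j) := fun j hj => Nat.not_odd_iff_even.1 (hK j hj)
    rw [(hmom J a).2 hJ2, (hmom K b).2 hK2]
    refine tendsto_avg_of_eventually (m0 := m0) (fun m hm => ?_) (hCEA α hα herg J K a b)
    rw [integral_congr_ae (Eventually.of_forall fun x => prod_eq J K a b m (hm0 m hm) x),
      integral_congr_ae (μ := α) (Eventually.of_forall fun x => prod_eq J K a b m (hm0 m hm) x)]
    refine (hmom _ _).2 fun j hj => ?_
    rw [Finset.mem_union, Finset.mem_map] at hj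
    by_cases hjJ : j ∈ J
    · rw [if_pos hjJ]; exact hJ2 j hjJ
    · rw [if_neg hjJ]
      rcases hj with hj | ⟨k, hk, hkj⟩
      · exact absurd hj hjJ
      · have h1 : k + (m : ℤ) = j := hkj
        rw [← h1, add_sub_cancel_right]
        exact hK2 k hk

end Pool.Agent.H11.RR
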