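import Pool.Agent.H92.RR.Targets

/-! # Module RSWX: density of the polynomials in the coordinates -/

open MeasureTheory ProbabilityTheory Filter Topology Finset
open scoped ENNReal

namespace Pool.Agent.H11.RR

open Pool.Agent.H89.MT Pool.Agent.H92.RR

/-- the coordinate functions -/
noncomputable def cd (j : ℤ) : C(X, ℝ) := ⟨fun x => (x j : ℝ), by fun_prop⟩

/-- monomials -/
def Mon (f : C(X, ℝ)) : Prop := ∃ (J : Finset ℤ) (a : ℤ → ℕ), (∀ j, j ∉ J → a j = 0) ∧
  ∀ x : X, f x = ∏ j ∈ J, (x j : ℝ) ^ a j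

theorem mon_mul {f g : C(X, ℝ)} (hf : Mon f) (hg : Mon g) : Mon (f * g) := by
  obtain ⟨J, a, ha, hfa⟩ := hf
  obtain ⟨K, b, hb, hgb⟩ := hg
  refine ⟨J ∪ K, fun j => a j + b j, fun j hj => ?_, fun x => ?_⟩
  · have h1 := ha j (fun h => hj (Finset.mem_union_left _ h))
    have h2 := hb j (fun h => hj (Finset.mem_union_right _ h))
    simp [h1, h2]
  · have h1 : ∏ j ∈ J, (x j : ℝ) ^ a j = ∏ j ∈ J ∪ K, (x j : ℝ) ^ a j :=
      Finset.prod_subset Finset.subset_union_left fun j _ hj => by rw [ha j hj, pow_zero]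
    have h2 : ∏ j ∈ K, (x j : ℝ) ^ b j = ∏ j ∈ J ∪ K, (x j : ℝ) ^ b j :=
      Finset.prod_subset Finset.subset_union_right fun j _ hj => by rw [hb j hj, pow_zero]
    rw [ContinuousMap.mul_apply, hfa x, hgb x, h1, h2, ← Finset.prod_mul_distrib]
    exact Finset.prod_congr rfl fun j _ => (pow_add _ _ _).symm

theorem mon_closure {f : C(X, ℝ)} (hf : f ∈ Submonoid.closure (Set.range cd)) : Mon f := by
  induction hf using Submonoid.closure_induction with
  | mem x hx =>
    obtain ⟨j, rfl⟩ := hx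
    refine ⟨{j}, fun i => if i = j then 1 else 0, fun i hi => ?_, fun x => ?_⟩
    · rw [Finset.mem_singleton] at hi
      simp [hi]
    · simp [cd]
  | one =>
    refine ⟨∅, fun _ => 0, fun _ _ => rfl, fun x => ?_⟩
    simp
  | mul x y _ _ h1 h2 => exact mon_mul h1 h2

theorem pf_SWX : T_SWX := by
  intro F ε hε
  have hsep : (Algebra.adjoin ℝ (Set.range cd)).SeparatesPoints := by
    intro x y hxy
    have h1 : ∃ j, x j ≠ y j := by
      by_contra h
      push Not at h
      exact hxy (funext h)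
    obtain ⟨j, hj⟩ := h1
    refine ⟨cd j, ⟨cd j, Algebra.subset_adjoin ⟨j, rfl⟩, rfl⟩, fun h => hj ?_⟩
    exact Subtype.ext h
  have htop := ContinuousMap.subalgebra_topologicalClosure_eq_top_of_separatesPoints _ hsep
  have hF : F ∈ (Algebra.adjoin ℝ (Set.range cd)).topologicalClosure := by
    rw [htop]; exact Algebra.mem_top
  have hF2 : F ∈ closure ((Algebra.adjoin ℝ (Set.range cd) : Subalgebra ℝ C(X, ℝ)) :
      Set C(X, ℝ)) := hF
  rw [Metric.mem_closure_iff] at hF2
  obtain ⟨g, hg, hFg⟩ := hF2 ε hε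
  have hg2 : g ∈ Subalgebra.toSubmodule (Algebra.adjoin ℝ (Set.range cd)) := hg
  rw [Algebra.adjoin_eq_span, Submodule.mem_span_set'] at hg2
  obtain ⟨n, c, m, hsum⟩ := hg2
  have hm : ∀ i, Mon (m i : C(X, ℝ)) := fun i => mon_closure (m i).2
  choose J a _ha hJ using hm
  refine ⟨n, J, a, c, fun x => ?_⟩
  have h2 : ∑ i, c i * ∏ j ∈ J i, (x j : ℝ) ^ a i j = g x := by
    rw [← hsum, ContinuousMap.coe_sum, Finset.sum_apply]
    refine Finset.sum_congr rfl fun i _ => ?_
    rw [← hJ i x]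
    rfl
  rw [h2]
  have h3 := (ContinuousMap.dist_lt_iff hε).1 hFg x
  rw [Real.dist_eq] at h3
  exact h3.le

end Pool.Agent.H11.RR
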